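import Mathlib
import Pool.Agent.Q116.PP.Main

/-!
# Optimal strong parity edge-colourings of path powers (MP_c1651f_co, Q1: true)

Definitions used in the statement (from `Pool.Agent.Q116.PP.Gray` and `Pool.Agent.Q116.PP.Main`):

* `ParityWalk c p`: every colour occurs an even number of times in the list of edges of the
  walk `p` (with repetitions).
* `IsSpec G c`: the endpoints of every parity walk of `G` coincide (no open parity walk).
* `numColours G c`: number of colours that `c` puts on edges of `G`.
* `pathPower n l`: the graph on `Fin n` in which `i`, `j` are adjacent iff `1 ≤ |i - j| ≤ l`.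
* `grayIndex t = 1 + ν₂(t)` and `grayColouring n`: the colour of `ij`, `i < j`, is
  `∑_{t=i+1}^{j} e_{grayIndex t}` in `𝔽₂^(ℕ)`.

The lower bound comes from an inequality for sequences in elementary abelian 2-groups
(`Q116.PP.main`), proved by dividing out a difference `a i + a j ∉ D` with `|i - j|` minimal.
-/

namespace Pool.Agent.Results.MP_c1651f_co.PathPowerSpec

open Q116.PP

/-- `p̂(G)`: the least number of colours used by a spec of `G` (colours are natural numbers). -/
noncomputable def pHat {V : Type*} (G : SimpleGraph V) : ℕ :=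
  sInf {k | ∃ c : Sym2 V → ℕ, IsSpec G c ∧ numColours G c = k}

lemma sum_eq (m l : ℕ) : ∑ k ∈ Finset.Icc 1 m, min l (2 ^ (k - 1)) = F l m := by
  induction m with
  | zero => simp [F]
  | succ m ih =>
    rw [Finset.sum_Icc_succ_top (by omega), ih, F_succ]
    simp

open scoped Classical in
lemma isSpec_comp {V C C' : Type*} {G : SimpleGraph V} {c : Sym2 V → C} (e : C → C')
    (he : Function.Injective e) (hc : IsSpec G c) : IsSpec G (fun x => e (c x)) := by
  intro u v p hp
  apply hc u v p
  intro x
  have h := hp (e x)
  have h2 : (p.edges.map (fun x => e (c x))).count (e x) = (p.edges.map c).count x := by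
    rw [show (fun x => e (c x)) = e ∘ c from rfl, ← List.map_map, List.count_map_of_injective _ e he]
  rw [h2] at h
  exact h

lemma numColours_comp {V C C' : Type*} {G : SimpleGraph V} {c : Sym2 V → C} (e : C → C')
    (he : Function.Injective e) : numColours G (fun x => e (c x)) = numColours G c := by
  unfold numColours
  rw [show (fun x => e (c x)) = e ∘ c from rfl, Set.image_comp, Set.ncard_image_of_injective _ he]

/-- **Result.** For all `n, l ≥ 1`: the Gray-code colouring is a spec of `P_n^l`, no spec uses
fewer colours, and the number of its colours, which is `p̂(P_n^l)`, equals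
`∑_{k=1}^{⌈lg n⌉} min l 2^(k-1)`. -/
theorem result (n l : ℕ) (hn : 1 ≤ n) (hl : 1 ≤ l) :
    IsSpec (pathPower n l) (grayColouring n) ∧
    (∀ (C : Type*) (c : Sym2 (Fin n) → C), IsSpec (pathPower n l) c →
      numColours (pathPower n l) (grayColouring n) ≤ numColours (pathPower n l) c) ∧
    numColours (pathPower n l) (grayColouring n) =
      ∑ k ∈ Finset.Icc 1 (Nat.clog 2 n), min l (2 ^ (k - 1)) ∧
    pHat (pathPower n l) = ∑ k ∈ Finset.Icc 1 (Nat.clog 2 n), min l (2 ^ (k - 1)) := by
  rw [sum_eq]
  have hspec := gray_isSpec n l
  have hup := numColours_gray_le n l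
  have hlow : ∀ (C : Type) (c : Sym2 (Fin n) → C), IsSpec (pathPower n l) c →
      F l (Nat.clog 2 n) ≤ numColours (pathPower n l) c := fun C c hc => lower hn hl c hc
  have heq : numColours (pathPower n l) (grayColouring n) = F l (Nat.clog 2 n) :=
    le_antisymm hup (hlow _ _ hspec)
  refine ⟨hspec, fun C c hc => hup.trans (lower hn hl c hc), heq, ?_⟩
  obtain ⟨e, he⟩ := exists_injective_nat (ℕ →₀ ZMod 2)
  apply le_antisymm
  · apply Nat.sInf_le
    exact ⟨fun x => e (grayColouring n x), isSpec_comp e he hspec, by
      rw [numColours_comp e he, heq]⟩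
  · apply le_csInf
    · exact ⟨_, fun x => e (grayColouring n x), isSpec_comp e he hspec, rfl⟩
    · rintro k ⟨c, hc, rfl⟩
      exact hlow _ c hc

end Pool.Agent.Results.MP_c1651f_co.PathPowerSpec
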